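import Pool.Agent.Q285.MD.Phi

/-!
# Averages of functions of residues in `ℤ ^ d`
-/

set_option autoImplicit false
set_option linter.unusedSectionVars false

namespace Q285MD

open Finset
open Q282LT
open Q282MM (Phi)
open Q282.BP (bx mem_bx card_bx bx_mean mean_mul_period)
open Pool.Agent.TH894.NE (box mem_box card_box Per mean mean_mul mean_mono mean_add mean_const two_mod)

variable {d : ℕ}

/-- restriction to the natural numbers -/
def res (f : (Fin d → ℤ) → ℝ) : (Fin d → ℕ) → ℝ := fun n => f fun i => (n i : ℤ)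

lemma avg_eq (q : ℕ) (f : (Fin d → ℤ) → ℝ) : avg d q f = mean d q (res f) := by
  unfold avg Pool.Agent.TH894.NE.mean
  rw [one_div, inv_mul_eq_div]
  rfl

lemma zres {q : ℕ} {f : (Fin d → ℤ) → ℝ} (h : ZPer q f) : Per q (res f) := by
  intro n
  refine h _ _ fun i => ?_
  show (q : ℤ) ∣ (n i : ℤ) - ((n i % q : ℕ) : ℤ)
  push_cast
  exact Int.dvd_self_sub_emod

lemma ZPer.of_dvd {q Q : ℕ} (hq : q ∣ Q) {f : (Fin d → ℤ) → ℝ} (h : ZPer q f) : ZPer Q f := by
  intro ν ν' hν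
  exact h ν ν' fun i => (Int.natCast_dvd_natCast.2 hq).trans (hν i)

lemma ZPer.mul {q : ℕ} {f g : (Fin d → ℤ) → ℝ} (hf : ZPer q f) (hg : ZPer q g) : ZPer q fun ν => f ν * g ν := by
  intro ν ν' hν
  show f ν * g ν = f ν' * g ν'
  rw [hf ν ν' hν, hg ν ν' hν]

lemma ZPer.sub_const {q : ℕ} {f : (Fin d → ℤ) → ℝ} (hf : ZPer q f) (c : ℝ) : ZPer q fun ν => f ν - c := by
  intro ν ν' hν
  show f ν - c = f ν' - c
  rw [hf ν ν' hν]

lemma ZPer.sum {κ : Type*} {s : Finset κ} {q : ℕ} {f : κ → (Fin d → ℤ) → ℝ} (hf : ∀ k ∈ s, ZPer q (f k)) :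
    ZPer q fun ν => ∑ k ∈ s, f k ν := by
  intro ν ν' hν
  show ∑ k ∈ s, f k ν = ∑ k ∈ s, f k ν'
  exact sum_congr rfl fun k hk => hf k hk ν ν' hν

lemma avg_dvd {q Q : ℕ} (hQ : 1 ≤ Q) (hq : q ∣ Q) {f : (Fin d → ℤ) → ℝ} (h : ZPer q f) : avg d Q f = avg d q f := by
  obtain ⟨k, rfl⟩ := hq
  have hq0 : 0 < q := Nat.pos_of_ne_zero fun h0 => by simp [h0] at hQ
  have hk0 : 0 < k := Nat.pos_of_ne_zero fun h0 => by simp [h0] at hQ
  rw [avg_eq, avg_eq, mul_comm]
  first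
    | exact mean_mul_period hq0 k hk0 _ (zres h)
    | (rw [mul_comm]; exact mean_mul_period hq0 k hk0 _ (zres h))

lemma avg_sum {κ : Type*} (s : Finset κ) (q : ℕ) (f : κ → (Fin d → ℤ) → ℝ) :
    avg d q (fun ν => ∑ k ∈ s, f k ν) = ∑ k ∈ s, avg d q (f k) := by
  simp only [avg_eq]
  exact mean_sum' s d q fun k => res (f k)

lemma avg_mono {q : ℕ} {f g : (Fin d → ℤ) → ℝ} (h : ∀ ν, f ν ≤ g ν) : avg d q f ≤ avg d q g := by
  simp only [avg_eq]
  exact mean_mono fun n => h _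

lemma avg_const {q : ℕ} (hq : 1 ≤ q) (c : ℝ) : avg d q (fun _ => c) = c := by
  simp only [avg_eq]
  exact mean_const d q hq c

lemma avg_add {q : ℕ} (f g : (Fin d → ℤ) → ℝ) : avg d q (fun ν => f ν + g ν) = avg d q f + avg d q g := by
  simp only [avg_eq]
  exact mean_add (res f) (res g)

lemma avg_smul {q : ℕ} (c : ℝ) (f : (Fin d → ℤ) → ℝ) : avg d q (fun ν => c * f ν) = c * avg d q f := by
  simp only [avg_eq]
  exact mean_mul c (res f)

lemma avg_abs {q : ℕ} (hq : 1 ≤ q) {f : (Fin d → ℤ) → ℝ} {M : ℝ} (h : ∀ ν, |f ν| ≤ M) : |avg d q f| ≤ M := by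
  rw [abs_le]
  constructor
  · have := avg_mono (q := q) (f := fun _ => -M) (g := f) fun ν => (abs_le.1 (h ν)).1
    rwa [avg_const hq] at this
  · have := avg_mono (q := q) (f := f) (g := fun _ => M) fun ν => (abs_le.1 (h ν)).2
    rwa [avg_const hq] at this

lemma avg_prod {u v : ℕ} (hu : 1 ≤ u) (hv : 1 ≤ v) (huv : Nat.Coprime u v) {f g : (Fin d → ℤ) → ℝ} (hf : ZPer u f)
    (hg : ZPer v g) : avg d (u * v) (fun ν => f ν * g ν) = avg d u f * avg d v g := by
  simp only [avg_eq]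
  exact mean_two hu hv huv (res f) (res g) (zres hf) (zres hg)

/-- the sum over a box with long sides -/
lemma zbox_mean {q : ℕ} (hq : 1 ≤ q) (m : Fin d → ℤ) (L : Fin d → ℕ) (T : ℝ) (hT : 0 < T) (hL : ∀ i, T ≤ L i)
    (f : (Fin d → ℤ) → ℝ) (hf : ZPer q f) (M : ℝ) (hM : ∀ ν, |f ν| ≤ M) (hqT : (d : ℝ) * q ≤ T) :
    |∑ ν ∈ zbox m L, f ν - (∏ i, (L i : ℝ)) * avg d q f| ≤ (∏ i, (L i : ℝ)) * (M * (2 * (d * q / T))) := by
  have hL0 : ∀ i, (0 : ℝ) < L i := fun i => hT.trans_le (hL i)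
  have hP0 : 0 < ∏ i, (L i : ℝ) := prod_pos fun i _ => hL0 i
  have h1 := bx_mean (d := d) (q := q) hq L T hT hL (fun n => f (fun i => m i + n i)) (hf.per m) M fun n => hM _
  rw [mean_shift hq hf m] at h1
  have h2 : ∑ ν ∈ zbox m L, f ν = ∑ n ∈ bx L, f (fun i => m i + n i) := by
    symm
    refine sum_nbij' (i := fun n i => m i + n i) (j := fun ν i => (ν i - m i).toNat) ?_ ?_ ?_ ?_ ?_
    · intro n hn
      rw [mem_bx] at hn
      rw [mem_zbox]
      intro i
      have := hn i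
      show m i ≤ m i + n i ∧ m i + n i < m i + L i
      constructor <;> omega
    · intro ν hν
      rw [mem_zbox] at hν
      rw [mem_bx]
      intro i
      have := hν i
      show (ν i - m i).toNat < L i
      omega
    · intro n _
      funext i
      show (m i + n i - m i).toNat = n i
      omega
    · intro ν hν
      rw [mem_zbox] at hν
      funext i
      have := hν i
      show m i + (((ν i - m i).toNat : ℕ) : ℤ) = ν i
      omega
    · intro n _
      rfl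
  rw [h2]
  refine h1.trans ?_
  have hM0 : 0 ≤ M := (abs_nonneg _).trans (hM fun _ => 0)
  refine mul_le_mul_of_nonneg_left (mul_le_mul_of_nonneg_left ?_ hM0) hP0.le
  have h8 : 0 ≤ (d : ℝ) * q / T := by positivity
  have h7 : (d : ℝ) * q / T ≤ 1 := by
    rw [div_le_one hT]
    exact hqT
  have h9 := Real.abs_exp_sub_one_le (x := (d : ℝ) * q / T) (by rw [abs_of_nonneg h8]; exact h7)
  rw [abs_of_nonneg h8] at h9
  exact (le_abs_self _).trans h9

end Q285MD
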