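import Pool.Agent.Q285.MD.Var

/-!
# Sums of functions of `s` consecutive residues: blocks
-/

set_option autoImplicit false
set_option linter.unusedSectionVars false

namespace Q285MD

open Finset
open Q282LT
open Pool.Agent.TH894.NE (box mem_box card_box Per mean mean_mul mean_mono mean_add mean_const two_mod)

variable {d s K : ℕ} {q : ℕ → ℕ} {g : ℕ → (Fin d → ℤ) → ℝ}

/-- the windows inside of the block `j` -/
def blk (s K B j : ℕ) : Finset ℕ := (range K).filter fun k => k / B = j ∧ k % B + s ≤ B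

/-- the windows inside of the blocks -/
def inn (s K B : ℕ) : Finset ℕ := (range K).filter fun k => k % B + s ≤ B

/-- the other windows -/
def rem (s K B : ℕ) : Finset ℕ := (range K).filter fun k => ¬ (k % B + s ≤ B)

/-- the modulus of a block -/
def Qb (s K B : ℕ) (q : ℕ → ℕ) (j : ℕ) : ℕ := ∏ i ∈ (range (K + s)).filter (fun i => i / B = j), q i

/-- the block sums -/
noncomputable def F (s K B : ℕ) (g : ℕ → (Fin d → ℤ) → ℝ) (j : ℕ) (ν : Fin d → ℤ) : ℝ := ∑ k ∈ blk s K B j, g k ν / B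

lemma inn_rem (s K B : ℕ) : inn s K B ∪ rem s K B = range K := filter_union_filter_not_eq _ _

lemma disj (s K B : ℕ) : Disjoint (inn s K B) (rem s K B) := disjoint_filter_filter_not _ _ _

lemma card_rem (s K B : ℕ) (hB : 0 < B) : ((rem s K B).card : ℝ) ≤ s * (K / B + 1) := by
  have h1 : (rem s K B).card ≤ (range (K / B + 1) ×ˢ Ico (B - s + 1 - 1) B).card := by
    refine card_le_card_of_injOn (fun k => (k / B, k % B)) ?_ ?_
    · intro k hk
      rw [mem_coe, rem, mem_filter, mem_range] at hk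
      rw [mem_coe, mem_product, mem_range, mem_Ico]
      refine ⟨Nat.lt_succ_of_le (Nat.div_le_div_right hk.1.le), ?_, Nat.mod_lt _ hB⟩
      have := hk.2
      show B - s + 1 - 1 ≤ k % B
      omega
    · intro k _ l _ hkl
      simp only [Prod.mk.injEq] at hkl
      rw [← Nat.div_add_mod k B, ← Nat.div_add_mod l B, hkl.1, hkl.2]
  rw [card_product, card_range, Nat.card_Ico] at h1
  have h2 : B - (B - s + 1 - 1) ≤ s := by omega
  have h3 : (rem s K B).card ≤ (K / B + 1) * s := h1.trans (Nat.mul_le_mul_left _ h2)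
  have h4 : ((rem s K B).card : ℝ) ≤ ((K / B : ℕ) + 1) * s := by exact_mod_cast h3
  have h5 : ((K / B : ℕ) : ℝ) ≤ K / B := Nat.cast_div_le
  have h6 : (0 : ℝ) ≤ s := Nat.cast_nonneg s
  nlinarith

lemma sum_blk (s K B : ℕ) (f : ℕ → ℝ) : ∑ j ∈ range (K / B + 1), ∑ k ∈ blk s K B j, f k = ∑ k ∈ inn s K B, f k := by
  have h1 : ∀ k ∈ inn s K B, k / B ∈ range (K / B + 1) := by
    intro k hk
    rw [inn, mem_filter, mem_range] at hk
    rw [mem_range]
    exact Nat.lt_succ_of_le (Nat.div_le_div_right hk.1.le)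
  rw [← sum_fiberwise_of_maps_to h1]
  refine sum_congr rfl fun j _ => sum_congr ?_ fun _ _ => rfl
  unfold inn blk
  rw [filter_filter]
  exact filter_congr fun k _ => and_comm

lemma card_fib (N B j : ℕ) (hB : 0 < B) : ((range N).filter fun i => i / B = j).card ≤ B := by
  calc ((range N).filter fun i => i / B = j).card ≤ (Ico (j * B) (j * B + B)).card := by
        refine card_le_card fun i hi => ?_
        rw [mem_filter, Nat.div_eq_iff hB] at hi
        rw [mem_Ico]
        omega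
    _ = B := by rw [Nat.card_Ico, Nat.add_sub_cancel_left]

lemma card_blk (s K B j : ℕ) (hB : 0 < B) : (blk s K B j).card ≤ B := by
  refine le_trans (card_le_card ?_) (card_fib K B j hB)
  intro k hk
  rw [blk, mem_filter] at hk
  rw [mem_filter]
  exact ⟨hk.1, hk.2.1⟩

lemma Dat.Qb_pos (h : Dat d s K q g) (B j : ℕ) : 1 ≤ Qb s K B q j := by
  have h1 : 0 < Qb s K B q j := by
    unfold Qb
    refine prod_pos fun i hi => ?_
    rw [mem_filter, mem_range] at hi
    exact h.q1 i hi.1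
  exact h1

lemma Dat.Qb_cop (h : Dat d s K q g) (B : ℕ) {i j : ℕ} (hij : i ≠ j) : Nat.Coprime (Qb s K B q i) (Qb s K B q j) := by
  unfold Qb
  refine Nat.Coprime.prod_left fun a ha => Nat.Coprime.prod_right fun b hb => ?_
  rw [mem_filter, mem_range] at ha hb
  refine h.cop a ha.1 b hb.1 fun hab => hij ?_
  rw [← ha.2, ← hb.2, hab]

lemma Dat.wm_dvd_Qb (_h : Dat d s K q g) {B j k : ℕ} (hB : 0 < B) (hk : k ∈ blk s K B j) : wm q s k ∣ Qb s K B q j := by
  rw [blk, mem_filter, mem_range] at hk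
  unfold wm Qb
  refine prod_dvd_prod_of_subset _ _ _ fun i hi => ?_
  rw [mem_Ico] at hi
  rw [mem_filter, mem_range]
  refine ⟨by omega, ?_⟩
  rw [Nat.div_eq_iff hB]
  have h1 := Nat.div_add_mod k B
  rw [hk.2.1] at h1
  rw [mul_comm j B]
  have h2 := hk.2.2
  constructor <;> omega

lemma mem_blk_lt {B j k : ℕ} (hk : k ∈ blk s K B j) : k < K := by
  rw [blk, mem_filter, mem_range] at hk
  exact hk.1

lemma Dat.F_per (h : Dat d s K q g) {B : ℕ} (hB : 0 < B) (j : ℕ) : ZPer (Qb s K B q j) (F s K B g j) := by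
  unfold F
  refine ZPer.sum fun k hk => ?_
  intro ν ν' hν
  show g k ν / B = g k ν' / B
  rw [ZPer.of_dvd (h.wm_dvd_Qb hB hk) (h.per k (mem_blk_lt hk)) ν ν' hν]

lemma Dat.F_bd (h : Dat d s K q g) {B : ℕ} (hB : 0 < B) (j : ℕ) (ν : Fin d → ℤ) : |F s K B g j ν| ≤ 1 := by
  have hB0 : (0 : ℝ) < B := by exact_mod_cast hB
  unfold F
  refine (abs_sum_le_sum_abs _ _).trans ?_
  calc ∑ k ∈ blk s K B j, |g k ν / B| ≤ ∑ _k ∈ blk s K B j, 1 / (B : ℝ) := by
        refine sum_le_sum fun k hk => ?_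
        rw [abs_div, abs_of_pos hB0]
        exact div_le_div_of_nonneg_right (h.bd k (mem_blk_lt hk) ν) hB0.le
    _ = (blk s K B j).card * (1 / (B : ℝ)) := by rw [sum_const, nsmul_eq_mul]
    _ ≤ B * (1 / (B : ℝ)) := by
        refine mul_le_mul_of_nonneg_right ?_ (by positivity)
        exact_mod_cast card_blk s K B j hB
    _ = 1 := by
        field_simp

lemma Dat.F_avg (h : Dat d s K q g) {B : ℕ} (hB : 0 < B) (j : ℕ) :
    avg d (Qb s K B q j) (F s K B g j) = ∑ k ∈ blk s K B j, avg d (wm q s k) (g k) / B := by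
  have e : F s K B g j = fun ν => ∑ k ∈ blk s K B j, (1 / (B : ℝ)) * g k ν := by
    funext ν
    unfold F
    exact sum_congr rfl fun k _ => by ring
  rw [e, avg_sum]
  refine sum_congr rfl fun k hk => ?_
  rw [avg_smul, avg_dvd (h.Qb_pos B j) (h.wm_dvd_Qb hB hk) (h.per k (mem_blk_lt hk))]
  ring

lemma Dat.F_sub (h : Dat d s K q g) {B : ℕ} (hB : 0 < B) (j : ℕ) (ν : Fin d → ℤ) :
    F s K B g j ν - avg d (Qb s K B q j) (F s K B g j) = ∑ k ∈ blk s K B j, G s q g k ν / B := by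
  rw [h.F_avg hB j, F, ← sum_sub_distrib]
  refine sum_congr rfl fun k _ => ?_
  unfold G
  ring

lemma avg_sub_sq {Q : ℕ} (hQ : 1 ≤ Q) (f : (Fin d → ℤ) → ℝ) (c : ℝ) (hc : avg d Q f = c) :
    avg d Q (fun ν => (f ν - c) ^ 2) = avg d Q (fun ν => f ν ^ 2) - avg d Q f ^ 2 := by
  have e : (fun ν => (f ν - c) ^ 2) = fun ν => f ν ^ 2 + (-(2 * c) * f ν + c ^ 2) := by
    funext ν
    ring
  rw [e, avg_add (fun ν => f ν ^ 2) (fun ν => -(2 * c) * f ν + c ^ 2), avg_add (fun ν => -(2 * c) * f ν) (fun _ => c ^ 2), avg_smul, avg_const hQ, hc]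
  ring

/-- the variance of the block sums -/
lemma Dat.var_blk (h : Dat d s K q g) {B : ℕ} (hB : 0 < B) :
    ∑ j ∈ range (K / B + 1), (avg d (Qb s K B q j) (fun ν => F s K B g j ν ^ 2) - avg d (Qb s K B q j) (F s K B g j) ^ 2) =
      vr d s K q g (inn s K B) / (B : ℝ) ^ 2 := by
  have hB0 : (0 : ℝ) < B := by exact_mod_cast hB
  obtain ⟨I, hI⟩ : ∃ I : Finset ℕ, I = range (K / B + 1) := ⟨_, rfl⟩
  obtain ⟨H, hH⟩ : ∃ H : ℕ → (Fin d → ℤ) → ℝ, H = fun j ν => F s K B g j ν - avg d (Qb s K B q j) (F s K B g j) := ⟨_, rfl⟩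
  have hHj : ∀ j, H j = fun ν => F s K B g j ν - avg d (Qb s K B q j) (F s K B g j) := fun j => by rw [hH]
  have hHp : ∀ j, ZPer (Qb s K B q j) (H j) := by
    intro j
    rw [hHj]
    exact ZPer.sub_const (h.F_per hB j) _
  have h1 := mk_two (d := d) I (Qb s K B q) (fun j => res (H j)) (fun j _ => h.Qb_pos B j) (fun i _ j _ hij => h.Qb_cop B hij)
    (fun j _ => zres (hHp j)) (fun j _ => by
      rw [← avg_eq, hHj]
      have h2 := avg_add (d := d) (q := Qb s K B q j) (F s K B g j) fun _ => - avg d (Qb s K B q j) (F s K B g j)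
      rw [avg_const (h.Qb_pos B j)] at h2
      simp only [sub_eq_add_neg]
      rw [h2]
      ring)
  have h3 : ∑ j ∈ I, va d (Qb s K B q) (fun j => res (H j)) j =
      ∑ j ∈ I, (avg d (Qb s K B q j) (fun ν => F s K B g j ν ^ 2) - avg d (Qb s K B q j) (F s K B g j) ^ 2) := by
    refine sum_congr rfl fun j _ => ?_
    rw [← avg_sub_sq (h.Qb_pos B j) (F s K B g j) _ rfl, avg_eq]
    show mean d (Qb s K B q j) (fun n => res (H j) n ^ 2) = _
    rw [hHj]
    rfl
  have h4 : Q282LT.mk d I (Qb s K B q) (fun j => res (H j)) 2 = vr d s K q g (inn s K B) / (B : ℝ) ^ 2 := by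
    have e1 : Q282LT.mk d I (Qb s K B q) (fun j => res (H j)) 2 = avg d (∏ j ∈ I, Qb s K B q j) (fun ν => (∑ j ∈ I, H j ν) ^ 2) := by
      rw [avg_eq]
      rfl
    have e2 : ∀ ν, ∑ j ∈ I, H j ν = (∑ k ∈ inn s K B, G s q g k ν) / B := by
      intro ν
      rw [hH, sum_div, ← sum_blk s K B fun k => G s q g k ν / B, hI]
      refine sum_congr rfl fun j _ => ?_
      exact h.F_sub hB j ν
    have hdv : (∏ j ∈ I, Qb s K B q j) ∣ tm q (K + s) := by
      unfold Qb tm
      rw [← prod_biUnion]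
      · refine prod_dvd_prod_of_subset _ _ _ fun i hi => ?_
        rw [mem_biUnion] at hi
        obtain ⟨j, _, hj⟩ := hi
        exact (mem_filter.1 hj).1
      · intro a _ b _ hab
        rw [Function.onFun, disjoint_left]
        intro i hi hi'
        rw [mem_filter] at hi hi'
        exact hab (hi.2.symm.trans hi'.2)
    have hper : ZPer (∏ j ∈ I, Qb s K B q j) (fun ν => (∑ j ∈ I, H j ν) ^ 2) := by
      intro ν ν' hν
      show (∑ j ∈ I, H j ν) ^ 2 = (∑ j ∈ I, H j ν') ^ 2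
      congr 1
      refine sum_congr rfl fun j hj => ?_
      exact ZPer.of_dvd (dvd_prod_of_mem (Qb s K B q) hj) (hHp j) ν ν' hν
    rw [e1, ← avg_dvd h.tm_pos hdv hper]
    unfold vr
    have e3 : (fun ν => (∑ j ∈ I, H j ν) ^ 2) = fun ν => (1 / (B : ℝ) ^ 2) * (∑ k ∈ inn s K B, G s q g k ν) ^ 2 := by
      funext ν
      rw [e2 ν]
      field_simp
    rw [e3, avg_smul]
    ring
  rw [← hI, ← h3, ← h1, h4]

end Q285MD
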