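import Pool.Agent.Q285.MD.Blk

/-!
# The normal law for sums of functions of `s` consecutive residues
-/

set_option autoImplicit false
set_option linter.unusedSectionVars false

namespace Q285MD

open Finset
open Q282LT
open Q282MM (Phi)

theorem gauss_md (s : ℕ) (c ε : ℝ) (hc : 0 < c) (hε : 0 < ε) : ∃ (K₀ : ℕ) (C₀ : ℝ) (A : ℕ), 0 < C₀ ∧
    ∀ (d K : ℕ) (q : ℕ → ℕ) (g : ℕ → (Fin d → ℤ) → ℝ), Dat d s K q g → K₀ ≤ K →
      c * K ≤ vr d s K q g (range K) →
      ∀ Y : ℕ, (∀ i < K + s, q i ≤ Y) → K ≤ Y → ∀ (m : Fin d → ℤ) (L : Fin d → ℕ), (∀ i, C₀ * (d + 1) * (Y : ℝ) ^ A ≤ L i) →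
      ∀ y : ℝ, |(((zbox m L).filter fun ν => ∑ k ∈ range K, G s q g k ν ≤ y * Real.sqrt (vr d s K q g (range K))).card : ℝ) /
        ∏ i, (L i : ℝ) - Phi y| ≤ ε := by
  classical
  obtain ⟨t, ht0, ht2, hst⟩ := Phi_stable (ε / 4) (by positivity)
  obtain ⟨V₀, C₁, A₁, hV₀, hC₁, hG⟩ := gauss_z (ε / 4) (by positivity)
  obtain ⟨ρ, hρ⟩ : ∃ ρ : ℝ, ρ = min (t ^ 2 / 128) (ε * t ^ 2 / 8) := ⟨_, rfl⟩
  have hρ0 : 0 < ρ := by
    rw [hρ]
    exact lt_min (by positivity) (by positivity)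
  have hρ1 : ρ ≤ t ^ 2 / 128 := by
    rw [hρ]
    exact min_le_left _ _
  have hρ2 : ρ ≤ ε * t ^ 2 / 8 := by
    rw [hρ]
    exact min_le_right _ _
  obtain ⟨B, hB⟩ := exists_nat_ge (16 * (s : ℝ) ^ 2 / (c * ρ) + 2)
  have hBr : (2 : ℝ) ≤ B := by
    have : 0 ≤ 16 * (s : ℝ) ^ 2 / (c * ρ) := by positivity
    linarith
  have hB1 : 16 * (s : ℝ) ^ 2 ≤ B * (c * ρ) := by
    rw [← div_le_iff₀ (by positivity)]
    linarith
  have hB2 : 2 ≤ B := by exact_mod_cast hBr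
  have hB0 : (0 : ℝ) < B := by linarith
  obtain ⟨K₀, hK₀⟩ := exists_nat_ge (16 * (s : ℝ) ^ 2 / (c * ρ) + 8 / (c * (ε * t ^ 2)) + 2 * (B : ℝ) ^ 2 * V₀ / c + 2)
  refine ⟨K₀, C₁ + 8, B * A₁ + (2 * s + 2), by positivity, ?_⟩
  intro d K q g h hK hV Y hY hKY m L hL y
  have hKr : (K₀ : ℝ) ≤ K := by exact_mod_cast hK
  have hp1 : 0 ≤ 16 * (s : ℝ) ^ 2 / (c * ρ) := by positivity
  have hp2 : 0 ≤ 8 / (c * (ε * t ^ 2)) := by positivity
  have hp3 : 0 ≤ 2 * (B : ℝ) ^ 2 * V₀ / c := by positivity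
  have hK1 : 16 * (s : ℝ) ^ 2 ≤ K * (c * ρ) := by
    rw [← div_le_iff₀ (by positivity)]
    linarith
  have hK2 : 8 ≤ K * (c * (ε * t ^ 2)) := by
    rw [← div_le_iff₀ (by positivity)]
    linarith
  have hK3 : 2 * (B : ℝ) ^ 2 * V₀ ≤ K * c := by
    rw [← div_le_iff₀ hc]
    linarith
  have hK4 : (2 : ℝ) ≤ K := by linarith
  have hK5 : 2 ≤ K := by exact_mod_cast hK4
  have hY2 : 2 ≤ Y := hK5.trans hKY
  have hY1 : (1 : ℝ) ≤ Y := by exact_mod_cast (by omega : 1 ≤ Y)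
  have hB0n : 0 < B := by omega
  obtain ⟨V, hVd⟩ : ∃ V : ℝ, V = vr d s K q g (range K) := ⟨_, rfl⟩
  obtain ⟨VI, hVI⟩ : ∃ VI : ℝ, VI = vr d s K q g (inn s K B) := ⟨_, rfl⟩
  obtain ⟨VR, hVR⟩ : ∃ VR : ℝ, VR = vr d s K q g (rem s K B) := ⟨_, rfl⟩
  rw [← hVd] at hV ⊢
  have hV0 : 0 < V := lt_of_lt_of_le (by positivity) hV
  have hRK : rem s K B ⊆ range K := filter_subset _ _
  have hcr : 8 * s * ((rem s K B).card : ℝ) ≤ ρ * V := by
    have h1 := card_rem s K B hB0n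
    have h2 : 8 * s * ((rem s K B).card : ℝ) ≤ 8 * s * (s * (K / B + 1)) := mul_le_mul_of_nonneg_left h1 (by positivity)
    have h3 : 8 * (s : ℝ) * (s * (K / B + 1)) = 8 * (s : ℝ) ^ 2 / B * K + 8 * (s : ℝ) ^ 2 := by
      field_simp
    have h4 : 8 * (s : ℝ) ^ 2 / B ≤ c * ρ / 2 := by
      rw [div_le_iff₀ hB0]
      linarith
    have h5 : 8 * (s : ℝ) ^ 2 / B * K ≤ c * ρ / 2 * K := mul_le_mul_of_nonneg_right h4 (by positivity)
    have h6 : ρ * (c * K) ≤ ρ * V := mul_le_mul_of_nonneg_left hV hρ0.le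
    rw [h3] at h2
    linarith
  have hVR1 : VR ≤ ρ * V := by
    rw [hVR]
    exact (h.vr_le _ hRK).trans hcr
  have hVR0 : 0 ≤ VR := by
    rw [hVR]
    exact vr_nonneg h _
  have hadd := vr_add (d := d) (s := s) (K := K) (q := q) (g := g) (inn s K B) (rem s K B) (disj s K B) (t / 8) (by positivity)
  rw [inn_rem, ← hVd, ← hVI, ← hVR] at hadd
  have hVR2 : (1 + 1 / (t / 8)) * VR ≤ t / 8 * V := by
    have h1 : 1 + 1 / (t / 8) ≤ 16 / t := by
      have : 1 / (t / 8) = 8 / t := by field_simp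
      rw [this]
      have : 1 ≤ 8 / t := by
        rw [one_le_div ht0]
        linarith
      have : 16 / t = 8 / t + 8 / t := by ring
      linarith
    calc (1 + 1 / (t / 8)) * VR ≤ 16 / t * (ρ * V) := mul_le_mul h1 hVR1 hVR0 (by positivity)
      _ ≤ 16 / t * (t ^ 2 / 128 * V) := by
          refine mul_le_mul_of_nonneg_left (mul_le_mul_of_nonneg_right hρ1 hV0.le) (by positivity)
      _ = t / 8 * V := by
          field_simp
          ring
  have hVI1 : V * (1 - t / 8) ≤ (1 + t / 8) * VI := by linarith [hadd.1]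
  have hVI2 : VI ≤ (1 + t / 4) * V := by linarith [hadd.2]
  have hVI3 : V / 2 ≤ VI := by nlinarith
  have hVI0 : 0 < VI := by linarith
  obtain ⟨l, hl⟩ : ∃ l : ℝ, l = Real.sqrt V / Real.sqrt VI := ⟨_, rfl⟩
  have hsI : 0 < Real.sqrt VI := Real.sqrt_pos.2 hVI0
  have hsV : 0 < Real.sqrt V := Real.sqrt_pos.2 hV0
  have hl0 : 0 < l := by
    rw [hl]
    positivity
  have hlsq : l ^ 2 = V / VI := by
    rw [hl, div_pow, Real.sq_sqrt hV0.le, Real.sq_sqrt hVI0.le]
  have hlV : l * Real.sqrt VI = Real.sqrt V := by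
    rw [hl]
    field_simp
  have hl1 : |l - 1| ≤ t := by
    have h1 : |l ^ 2 - 1| ≤ t := by
      rw [hlsq, abs_le]
      constructor
      · have : 1 - t ≤ V / VI := by
          rw [le_div_iff₀ hVI0]
          nlinarith
        linarith
      · have : V / VI ≤ 1 + t := by
          rw [div_le_iff₀ hVI0]
          nlinarith
        linarith
    have h2 : |l ^ 2 - 1| = |l - 1| * (l + 1) := by
      have : l ^ 2 - 1 = (l - 1) * (l + 1) := by ring
      rw [this, abs_mul, abs_of_pos (by linarith : 0 < l + 1)]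
    rw [h2] at h1
    nlinarith [abs_nonneg (l - 1)]
  -- the block sums
  obtain ⟨P, hP⟩ : ∃ P : ℝ, P = ∏ i, (L i : ℝ) := ⟨_, rfl⟩
  obtain ⟨T, hT⟩ : ∃ T : ℝ, T = 8 * (d + 1) * (Y : ℝ) ^ (2 * s + 2) := ⟨_, rfl⟩
  have hT0 : 0 < T := by
    rw [hT]
    positivity
  have hYA : ∀ a b : ℕ, (1 : ℝ) ≤ (Y : ℝ) ^ a * (Y : ℝ) ^ b := fun a b => by
    rw [← pow_add]
    exact one_le_pow₀ hY1
  have hLT : ∀ i, T ≤ L i := by
    intro i
    refine le_trans ?_ (hL i)
    rw [hT, pow_add (Y : ℝ) (B * A₁)]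
    have h1 : (1 : ℝ) ≤ (Y : ℝ) ^ (B * A₁) := one_le_pow₀ hY1
    have h2 : (0 : ℝ) < (Y : ℝ) ^ (2 * s + 2) := by positivity
    have h3 : (Y : ℝ) ^ (2 * s + 2) ≤ (Y : ℝ) ^ (B * A₁) * (Y : ℝ) ^ (2 * s + 2) := le_mul_of_one_le_left h2.le h1
    refine mul_le_mul ?_ h3 h2.le (by positivity)
    refine mul_le_mul_of_nonneg_right ?_ (by positivity)
    linarith
  have hLB : ∀ i, C₁ * (d + 1) * ((Y ^ B : ℕ) : ℝ) ^ A₁ ≤ L i := by
    intro i
    refine le_trans ?_ (hL i)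
    push_cast
    rw [← pow_mul, pow_add]
    have h1 : (1 : ℝ) ≤ (Y : ℝ) ^ (2 * s + 2) := one_le_pow₀ hY1
    have h2 : (0 : ℝ) < (Y : ℝ) ^ (B * A₁) := by positivity
    have h3 : (Y : ℝ) ^ (B * A₁) ≤ (Y : ℝ) ^ (B * A₁) * (Y : ℝ) ^ (2 * s + 2) := le_mul_of_one_le_right h2.le h1
    refine mul_le_mul ?_ h3 h2.le (by positivity)
    refine mul_le_mul_of_nonneg_right ?_ (by positivity)
    linarith
  have hL0 : ∀ i, (0 : ℝ) < L i := fun i => hT0.trans_le (hLT i)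
  have hP0 : 0 < P := by
    rw [hP]
    exact prod_pos fun i _ => hL0 i
  have hblk : ∀ y' : ℝ, |(((zbox m L).filter fun ν => ∑ k ∈ inn s K B, G s q g k ν ≤ y' * Real.sqrt VI).card : ℝ) / P - Phi y'| ≤ ε / 4 := by
    intro y'
    have h1 := hG d (range (K / B + 1)) (Qb s K B q) (F s K B g) (fun j _ => h.Qb_pos B j) (fun i _ j _ hij => h.Qb_cop B hij)
      (fun j _ => h.F_per hB0n j) (fun j _ => h.F_bd hB0n j)
      (by
        rw [h.var_blk hB0n, ← hVI, le_div_iff₀ (by positivity)]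
        linarith)
      (Y ^ B)
      (by
        intro j _
        unfold Qb
        calc ∏ i ∈ (range (K + s)).filter (fun i => i / B = j), q i ≤ ∏ _i ∈ (range (K + s)).filter (fun i => i / B = j), Y :=
              prod_le_prod' fun i hi => hY i (mem_range.1 (mem_filter.1 hi).1)
          _ = Y ^ ((range (K + s)).filter (fun i => i / B = j)).card := by rw [prod_const]
          _ ≤ Y ^ B := Nat.pow_le_pow_right (by omega) (card_fib (K + s) B j hB0n))
      (by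
        rw [card_range]
        have h2 : K / B ≤ K := Nat.div_le_self K B
        calc K / B + 1 ≤ Y + 1 := by omega
          _ ≤ Y ^ 2 := by nlinarith
          _ ≤ Y ^ B := Nat.pow_le_pow_right (by omega) hB2)
      m L hLB y'
    rw [h.var_blk hB0n, ← hVI] at h1
    have h3 : (fun ν : Fin d → ℤ => ∑ j ∈ range (K / B + 1), F s K B g j ν ≤ ∑ j ∈ range (K / B + 1), avg d (Qb s K B q j) (F s K B g j) +
        y' * Real.sqrt (VI / (B : ℝ) ^ 2)) = fun ν => ∑ k ∈ inn s K B, G s q g k ν ≤ y' * Real.sqrt VI := by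
      funext ν
      have h4 : ∑ j ∈ range (K / B + 1), F s K B g j ν - ∑ j ∈ range (K / B + 1), avg d (Qb s K B q j) (F s K B g j) =
          (∑ k ∈ inn s K B, G s q g k ν) / B := by
        rw [← sum_sub_distrib, sum_div, ← sum_blk s K B fun k => G s q g k ν / B]
        exact sum_congr rfl fun j _ => h.F_sub hB0n j ν
      have h5 : Real.sqrt (VI / (B : ℝ) ^ 2) = Real.sqrt VI / B := by
        rw [Real.sqrt_div' _ (by positivity), Real.sqrt_sq hB0.le]
      rw [h5, ← sub_le_iff_le_add', h4, mul_div_assoc', div_le_div_iff_of_pos_right hB0]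
    simp only [h3] at h1
    rw [← hP] at h1
    exact h1
  -- the rest
  have hbad : (((zbox m L).filter fun ν => t * Real.sqrt V < |∑ k ∈ rem s K B, G s q g k ν|).card : ℝ) / P ≤ ε / 4 := by
    have h1 := h.box_sq (rem s K B) hRK Y hY m L T hT0 hLT (by
      rw [hT, pow_add]
      have h2 : (1 : ℝ) ≤ (Y : ℝ) ^ 2 := one_le_pow₀ hY1
      have h3 : (0 : ℝ) < (Y : ℝ) ^ (2 * s) := by positivity
      have h4 : (Y : ℝ) ^ (2 * s) ≤ (Y : ℝ) ^ (2 * s) * (Y : ℝ) ^ 2 := le_mul_of_one_le_right h3.le h2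
      refine mul_le_mul ?_ h4 h3.le (by positivity)
      have : (0 : ℝ) ≤ d := Nat.cast_nonneg d
      linarith)
    have h2 : 8 * ((rem s K B).card : ℝ) ^ 2 * (d * (Y : ℝ) ^ (2 * s) / T) ≤ 1 := by
      have h3 : ((rem s K B).card : ℝ) ≤ Y := by
        have : (rem s K B).card ≤ K := (card_le_card hRK).trans (card_range K).le
        exact_mod_cast this.trans hKY
      have h4 : ((rem s K B).card : ℝ) ^ 2 ≤ (Y : ℝ) ^ 2 := pow_le_pow_left₀ (Nat.cast_nonneg _) h3 2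
      rw [mul_div_assoc', div_le_one hT0, hT, pow_add]
      have h5 : (0 : ℝ) < (Y : ℝ) ^ (2 * s) := by positivity
      have h6 : (0 : ℝ) ≤ d := Nat.cast_nonneg d
      calc 8 * ((rem s K B).card : ℝ) ^ 2 * (d * (Y : ℝ) ^ (2 * s)) ≤ 8 * (Y : ℝ) ^ 2 * ((d + 1) * (Y : ℝ) ^ (2 * s)) := by
            refine mul_le_mul (by linarith) ?_ (by positivity) (by positivity)
            exact mul_le_mul_of_nonneg_right (by linarith) h5.le
        _ = _ := by ring
    rw [← hP] at h1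
    have h3 : (((zbox m L).filter fun ν => t * Real.sqrt V < |∑ k ∈ rem s K B, G s q g k ν|).card : ℝ) * (t ^ 2 * V) ≤
        ∑ ν ∈ zbox m L, (∑ k ∈ rem s K B, G s q g k ν) ^ 2 := by
      calc (((zbox m L).filter fun ν => t * Real.sqrt V < |∑ k ∈ rem s K B, G s q g k ν|).card : ℝ) * (t ^ 2 * V)
          = ∑ _ν ∈ (zbox m L).filter fun ν => t * Real.sqrt V < |∑ k ∈ rem s K B, G s q g k ν|, t ^ 2 * V := by
            rw [sum_const, nsmul_eq_mul]
        _ ≤ ∑ ν ∈ (zbox m L).filter fun ν => t * Real.sqrt V < |∑ k ∈ rem s K B, G s q g k ν|, (∑ k ∈ rem s K B, G s q g k ν) ^ 2 := by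
            refine sum_le_sum fun ν hν => ?_
            have h4 := (mem_filter.1 hν).2
            have h5 := pow_le_pow_left₀ (by positivity : 0 ≤ t * Real.sqrt V) h4.le 2
            rw [mul_pow, Real.sq_sqrt hV0.le, sq_abs] at h5
            exact h5
        _ ≤ _ := sum_le_sum_of_subset_of_nonneg (filter_subset _ _) fun ν _ _ => sq_nonneg _
    rw [div_le_iff₀ hP0]
    have h4 : P * (8 * s * ((rem s K B).card : ℝ) + 8 * ((rem s K B).card : ℝ) ^ 2 * (d * (Y : ℝ) ^ (2 * s) / T)) ≤ P * (ρ * V + 1) :=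
      mul_le_mul_of_nonneg_left (by linarith) hP0.le
    have h5 : ρ * V + 1 ≤ ε / 4 * (t ^ 2 * V) := by
      have h6 : ρ * V ≤ ε * t ^ 2 / 8 * V := mul_le_mul_of_nonneg_right hρ2 hV0.le
      have h7 : ε * t ^ 2 * (c * K) ≤ ε * t ^ 2 * V := mul_le_mul_of_nonneg_left hV (by positivity)
      linarith
    have h6 : P * (ρ * V + 1) ≤ P * (ε / 4 * (t ^ 2 * V)) := mul_le_mul_of_nonneg_left h5 hP0.le
    have h7 : (((zbox m L).filter fun ν => t * Real.sqrt V < |∑ k ∈ rem s K B, G s q g k ν|).card : ℝ) * (t ^ 2 * V) ≤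
      (ε / 4 * P) * (t ^ 2 * V) := by linarith
    exact le_of_mul_le_mul_right h7 (by positivity)
  rw [← hP]
  have hsplit : ∀ ν : Fin d → ℤ, ∑ k ∈ range K, G s q g k ν = ∑ k ∈ inn s K B, G s q g k ν + ∑ k ∈ rem s K B, G s q g k ν := by
    intro ν
    rw [← sum_union (disj s K B), inn_rem]
  have hup : (((zbox m L).filter fun ν => ∑ k ∈ range K, G s q g k ν ≤ y * Real.sqrt V).card : ℝ) ≤
      (((zbox m L).filter fun ν => ∑ k ∈ inn s K B, G s q g k ν ≤ ((y + t) * l) * Real.sqrt VI).card : ℝ) +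
      (((zbox m L).filter fun ν => t * Real.sqrt V < |∑ k ∈ rem s K B, G s q g k ν|).card : ℝ) := by
    have h1 : ((zbox m L).filter fun ν => ∑ k ∈ range K, G s q g k ν ≤ y * Real.sqrt V) ⊆
        ((zbox m L).filter fun ν => ∑ k ∈ inn s K B, G s q g k ν ≤ ((y + t) * l) * Real.sqrt VI) ∪
        ((zbox m L).filter fun ν => t * Real.sqrt V < |∑ k ∈ rem s K B, G s q g k ν|) := by
      intro ν hν
      rw [mem_filter] at hν
      rw [mem_union, mem_filter, mem_filter]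
      by_cases h2 : t * Real.sqrt V < |∑ k ∈ rem s K B, G s q g k ν|
      · exact Or.inr ⟨hν.1, h2⟩
      · refine Or.inl ⟨hν.1, ?_⟩
        rw [not_lt] at h2
        have h3 := (abs_le.1 h2).1
        have h4 := hν.2
        rw [hsplit] at h4
        rw [mul_assoc, hlV]
        linarith
    have h2 := (card_le_card h1).trans (card_union_le _ _)
    exact_mod_cast h2
  have hlo : (((zbox m L).filter fun ν => ∑ k ∈ inn s K B, G s q g k ν ≤ ((y + -t) * l) * Real.sqrt VI).card : ℝ) ≤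
      (((zbox m L).filter fun ν => ∑ k ∈ range K, G s q g k ν ≤ y * Real.sqrt V).card : ℝ) +
      (((zbox m L).filter fun ν => t * Real.sqrt V < |∑ k ∈ rem s K B, G s q g k ν|).card : ℝ) := by
    have h1 : ((zbox m L).filter fun ν => ∑ k ∈ inn s K B, G s q g k ν ≤ ((y + -t) * l) * Real.sqrt VI) ⊆
        ((zbox m L).filter fun ν => ∑ k ∈ range K, G s q g k ν ≤ y * Real.sqrt V) ∪
        ((zbox m L).filter fun ν => t * Real.sqrt V < |∑ k ∈ rem s K B, G s q g k ν|) := by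
      intro ν hν
      rw [mem_filter] at hν
      rw [mem_union, mem_filter, mem_filter]
      by_cases h2 : t * Real.sqrt V < |∑ k ∈ rem s K B, G s q g k ν|
      · exact Or.inr ⟨hν.1, h2⟩
      · refine Or.inl ⟨hν.1, ?_⟩
        rw [not_lt] at h2
        have h3 := (abs_le.1 h2).2
        have h4 := hν.2
        rw [mul_assoc, hlV] at h4
        rw [hsplit]
        linarith
    have h2 := (card_le_card h1).trans (card_union_le _ _)
    exact_mod_cast h2
  have hup' := div_le_div_of_nonneg_right hup hP0.le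
  have hlo' := div_le_div_of_nonneg_right hlo hP0.le
  rw [add_div] at hup' hlo'
  have h1 := (abs_le.1 (hblk ((y + t) * l))).2
  have h2 := (abs_le.1 (hblk ((y + -t) * l))).1
  have h3 := (abs_le.1 (hst y l t hl1 (by rw [abs_of_pos ht0]))).2
  have h4 := (abs_le.1 (hst y l (-t) hl1 (by rw [abs_neg, abs_of_pos ht0]))).1
  rw [abs_le]
  constructor <;> linarith

end Q285MD
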