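import Pool.Agent.Q282.LT.Shift

/-!
# Stability of the normal distribution function
-/

set_option autoImplicit false

namespace Q285MD

open MeasureTheory ProbabilityTheory Set Filter Topology
open Q282MM (Phi)

lemma Phi_mono {a b : ℝ} (h : a ≤ b) : Phi a ≤ Phi b := by
  unfold Q282MM.Phi
  exact measureReal_mono (Iic_subset_Iic.mpr h)

lemma Phi_nonneg (a : ℝ) : 0 ≤ Phi a := by
  unfold Q282MM.Phi
  exact measureReal_nonneg

lemma Phi_le_one (a : ℝ) : Phi a ≤ 1 := by
  unfold Q282MM.Phi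
  exact measureReal_le_one

lemma Phi_lip' (a b : ℝ) : |Phi a - Phi b| ≤ |a - b| := by
  have h1 : (√(2 * Real.pi))⁻¹ ≤ 1 := by
    apply inv_le_one_of_one_le₀
    rw [Real.one_le_sqrt]
    have := Real.pi_gt_three
    linarith
  rcases le_total a b with h | h
  · have h2 := Q285MM.Phi_lip h
    have h3 := Phi_mono h
    rw [abs_sub_comm, abs_of_nonneg (by linarith), abs_sub_comm, abs_of_nonneg (by linarith)]
    nlinarith
  · have h2 := Q285MM.Phi_lip h
    have h3 := Phi_mono h
    rw [abs_of_nonneg (by linarith), abs_of_nonneg (by linarith)]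
    nlinarith

lemma Phi_eq : Phi = fun x => cdf (gaussianReal 0 1) x := by
  funext x
  rw [cdf_eq_real]
  rfl

lemma Phi_bot : Tendsto Phi atBot (𝓝 0) := by
  rw [Phi_eq]
  exact tendsto_cdf_atBot _

lemma Phi_top : Tendsto Phi atTop (𝓝 1) := by
  rw [Phi_eq]
  exact tendsto_cdf_atTop _

/-- the normal distribution function is stable under small affine changes of the variable, uniformly -/
theorem Phi_stable (ε : ℝ) (hε : 0 < ε) : ∃ t : ℝ, 0 < t ∧ t ≤ 1 / 2 ∧
    ∀ y l η : ℝ, |l - 1| ≤ t → |η| ≤ t → |Phi ((y + η) * l) - Phi y| ≤ ε := by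
  obtain ⟨Z₁, hZ₁⟩ := (Filter.eventually_atBot.1 ((tendsto_order.1 Phi_bot).2 ε hε))
  obtain ⟨Z₂, hZ₂⟩ := (Filter.eventually_atTop.1 ((tendsto_order.1 Phi_top).1 (1 - ε) (by linarith)))
  obtain ⟨Z, hZ⟩ : ∃ Z : ℝ, Z = max (max (-Z₁) Z₂) 1 := ⟨_, rfl⟩
  have hZ1 : 1 ≤ Z := by
    rw [hZ]
    exact le_max_right _ _
  have hZa : ∀ a, a ≤ -Z → Phi a < ε := by
    intro a ha
    apply hZ₁
    have : -Z₁ ≤ Z := by
      rw [hZ]
      exact (le_max_left _ _).trans (le_max_left _ _)
    linarith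
  have hZb : ∀ a, Z ≤ a → 1 - ε < Phi a := by
    intro a ha
    apply hZ₂
    have : Z₂ ≤ Z := by
      rw [hZ]
      exact (le_max_right _ _).trans (le_max_left _ _)
    linarith
  refine ⟨min (1 / 2) (ε / (4 * Z + 4)), lt_min (by norm_num) (by positivity), min_le_left _ _, ?_⟩
  intro y l η hl hη
  have hl1 := abs_le.1 (hl.trans (min_le_left _ _))
  have hη1 := abs_le.1 (hη.trans (min_le_left _ _))
  have hl2 := hl.trans (min_le_right _ _)
  have hη2 := hη.trans (min_le_right _ _)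
  have hp1 := Phi_nonneg y
  have hp2 := Phi_le_one y
  have hq1 := Phi_nonneg ((y + η) * l)
  have hq2 := Phi_le_one ((y + η) * l)
  rcases lt_or_ge (2 * Z + 1) y with h1 | h1
  · have h2 : Z ≤ (y + η) * l := by nlinarith [hl1.1, hη1.1]
    have h3 := hZb _ h2
    have h4 := hZb y (by linarith)
    rw [abs_le]
    constructor <;> linarith
  rcases lt_or_ge y (-(2 * Z + 1)) with h2 | h2
  · have h3 : (y + η) * l ≤ -Z := by nlinarith [hl1.1, hη1.2]
    have h4 := hZa _ h3
    have h5 := hZa y (by linarith)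
    rw [abs_le]
    constructor <;> linarith
  refine (Phi_lip' _ _).trans ?_
  have h3 : (y + η) * l - y = y * (l - 1) + η * l := by ring
  rw [h3]
  have h4 : |y| ≤ 2 * Z + 1 := abs_le.2 ⟨h2, h1⟩
  have h5 : |l| ≤ 2 := by
    rw [abs_le]
    constructor <;> linarith [hl1.1, hl1.2]
  calc |y * (l - 1) + η * l| ≤ |y| * |l - 1| + |η| * |l| := by
        rw [← abs_mul, ← abs_mul]
        exact abs_add_le _ _
    _ ≤ (2 * Z + 1) * (ε / (4 * Z + 4)) + (ε / (4 * Z + 4)) * 2 := by
        refine add_le_add (mul_le_mul h4 hl2 (abs_nonneg _) (by linarith)) (mul_le_mul hη2 h5 (abs_nonneg _) (by positivity))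
    _ ≤ ε := by
        have h6 : (2 * Z + 1) * (ε / (4 * Z + 4)) + (ε / (4 * Z + 4)) * 2 = ε * ((2 * Z + 3) / (4 * Z + 4)) := by
          field_simp
          ring
        rw [h6]
        refine mul_le_of_le_one_right hε.le ?_
        rw [div_le_one (by positivity)]
        linarith

end Q285MD
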