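import Pool.Agent.Q285.MD.Avg

/-!
# Sums of functions of `s` consecutive residues: variances
-/

set_option autoImplicit false
set_option linter.unusedSectionVars false

namespace Q285MD

open Finset
open Q282LT

variable {d : ℕ}

/-- the modulus of a window -/
def wm (q : ℕ → ℕ) (s k : ℕ) : ℕ := ∏ i ∈ Ico k (k + s), q i

/-- the product of all moduli -/
def tm (q : ℕ → ℕ) (N : ℕ) : ℕ := ∏ i ∈ range N, q i

/-- the assumptions -/
structure Dat (d s K : ℕ) (q : ℕ → ℕ) (g : ℕ → (Fin d → ℤ) → ℝ) : Prop where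
  q1 : ∀ i < K + s, 1 ≤ q i
  cop : ∀ i < K + s, ∀ j < K + s, i ≠ j → Nat.Coprime (q i) (q j)
  per : ∀ k < K, ZPer (wm q s k) (g k)
  bd : ∀ k < K, ∀ ν, |g k ν| ≤ 1

/-- the centered functions -/
noncomputable def G (s : ℕ) (q : ℕ → ℕ) (g : ℕ → (Fin d → ℤ) → ℝ) (k : ℕ) (ν : Fin d → ℤ) : ℝ := g k ν - avg d (wm q s k) (g k)

variable {s K : ℕ} {q : ℕ → ℕ} {g : ℕ → (Fin d → ℤ) → ℝ}

lemma Dat.wm_pos (h : Dat d s K q g) {k : ℕ} (hk : k < K) : 1 ≤ wm q s k := by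
  have h1 : 0 < wm q s k := by
    unfold wm
    refine prod_pos fun i hi => ?_
    rw [mem_Ico] at hi
    exact h.q1 i (by omega)
  exact h1

lemma Dat.tm_pos (h : Dat d s K q g) : 1 ≤ tm q (K + s) := by
  have h1 : 0 < tm q (K + s) := by
    unfold tm
    exact prod_pos fun i hi => h.q1 i (mem_range.1 hi)
  exact h1

lemma Dat.wm_dvd (_h : Dat d s K q g) {k : ℕ} (hk : k < K) : wm q s k ∣ tm q (K + s) := by
  unfold wm tm
  refine prod_dvd_prod_of_subset _ _ _ fun i hi => ?_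
  rw [mem_Ico] at hi
  rw [mem_range]
  omega

lemma Dat.G_per (h : Dat d s K q g) {k : ℕ} (hk : k < K) : ZPer (wm q s k) (G s q g k) := ZPer.sub_const (h.per k hk) _

lemma Dat.G_bd (h : Dat d s K q g) {k : ℕ} (hk : k < K) (ν : Fin d → ℤ) : |G s q g k ν| ≤ 2 := by
  unfold G
  have h1 := h.bd k hk ν
  have h2 := avg_abs (h.wm_pos hk) (h.bd k hk)
  exact (abs_sub _ _).trans (by linarith)

lemma Dat.G_avg (h : Dat d s K q g) {k : ℕ} (hk : k < K) : avg d (wm q s k) (G s q g k) = 0 := by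
  unfold G
  have h1 := avg_add (d := d) (q := wm q s k) (g k) fun _ => - avg d (wm q s k) (g k)
  rw [avg_const (h.wm_pos hk)] at h1
  simp only [sub_eq_add_neg]
  rw [h1]
  ring

lemma Dat.GG_bd (h : Dat d s K q g) {k l : ℕ} (hk : k < K) (hl : l < K) (ν : Fin d → ℤ) : |G s q g k ν * G s q g l ν| ≤ 4 := by
  rw [abs_mul]
  calc |G s q g k ν| * |G s q g l ν| ≤ 2 * 2 := mul_le_mul (h.G_bd hk ν) (h.G_bd hl ν) (abs_nonneg _) (by norm_num)
    _ = 4 := by norm_num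

lemma Dat.GG_perT (h : Dat d s K q g) {k l : ℕ} (hk : k < K) (hl : l < K) :
    ZPer (tm q (K + s)) fun ν => G s q g k ν * G s q g l ν :=
  ZPer.mul (ZPer.of_dvd (h.wm_dvd hk) (h.G_per hk)) (ZPer.of_dvd (h.wm_dvd hl) (h.G_per hl))

lemma Dat.GG_per (h : Dat d s K q g) {k l : ℕ} (hk : k < K) (hl : l < K) :
    ZPer (wm q s k * wm q s l) fun ν => G s q g k ν * G s q g l ν :=
  ZPer.mul (ZPer.of_dvd (dvd_mul_right _ _) (h.G_per hk)) (ZPer.of_dvd (dvd_mul_left _ _) (h.G_per hl))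

lemma Dat.GG_avg (h : Dat d s K q g) {k l : ℕ} (hk : k < K) (hl : l < K) :
    avg d (wm q s k * wm q s l) (fun ν => G s q g k ν * G s q g l ν) = avg d (tm q (K + s)) (fun ν => G s q g k ν * G s q g l ν) := by
  have h0 : 1 ≤ wm q s k * wm q s l := Nat.mul_pos (h.wm_pos hk) (h.wm_pos hl)
  have h1 := avg_dvd (Nat.mul_pos h0 h.tm_pos) (dvd_mul_right (wm q s k * wm q s l) (tm q (K + s))) (h.GG_per hk hl)
  have h2 := avg_dvd (Nat.mul_pos h0 h.tm_pos) (dvd_mul_left (tm q (K + s)) (wm q s k * wm q s l)) (h.GG_perT hk hl)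
  rw [← h1, h2]

lemma Dat.GG_zero (h : Dat d s K q g) {k l : ℕ} (hk : k < K) (hl : l < K) (hkl : k + s ≤ l) :
    avg d (tm q (K + s)) (fun ν => G s q g k ν * G s q g l ν) = 0 := by
  have hc : Nat.Coprime (wm q s k) (wm q s l) := by
    unfold wm
    refine Nat.Coprime.prod_left fun i hi => Nat.Coprime.prod_right fun j hj => ?_
    rw [mem_Ico] at hi hj
    exact h.cop i (by omega) j (by omega) (by omega)
  rw [← h.GG_avg hk hl, avg_prod (h.wm_pos hk) (h.wm_pos hl) hc (h.G_per hk) (h.G_per hl), h.G_avg hk, zero_mul]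

lemma Dat.GG_zero' (h : Dat d s K q g) {k l : ℕ} (hk : k < K) (hl : l < K) (hkl : l + s ≤ k) :
    avg d (tm q (K + s)) (fun ν => G s q g k ν * G s q g l ν) = 0 := by
  have h1 := h.GG_zero hl hk hkl
  simp only [mul_comm] at h1 ⊢
  exact h1

/-- the sums of the covariances -/
lemma Dat.cov_sum (h : Dat d s K q g) (X : Finset ℕ) (hX : X ⊆ range K) :
    ∑ k ∈ X, ∑ l ∈ X, avg d (tm q (K + s)) (fun ν => G s q g k ν * G s q g l ν) ≤ 8 * s * X.card := by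
  have hX' : ∀ k ∈ X, k < K := fun k hk => mem_range.1 (hX hk)
  have h1 : ∀ k ∈ X, ∑ l ∈ X, avg d (tm q (K + s)) (fun ν => G s q g k ν * G s q g l ν) ≤ 8 * s := by
    intro k hk
    have h2 : ∀ l ∈ X, avg d (tm q (K + s)) (fun ν => G s q g k ν * G s q g l ν) ≤ if l ∈ Ico (k + 1 - s) (k + s) then 4 else 0 := by
      intro l hl
      split_ifs with h3
      · exact (le_abs_self _).trans (avg_abs h.tm_pos (h.GG_bd (hX' k hk) (hX' l hl)))
      · rw [mem_Ico, not_and_or, not_le, not_lt] at h3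
        rcases h3 with h3 | h3
        · rw [h.GG_zero' (hX' k hk) (hX' l hl) (by omega)]
        · rw [h.GG_zero (hX' k hk) (hX' l hl) (by omega)]
    refine (sum_le_sum h2).trans ?_
    rw [← sum_filter, sum_const, nsmul_eq_mul]
    have h3 : (X.filter fun l => l ∈ Ico (k + 1 - s) (k + s)).card ≤ 2 * s := by
      calc (X.filter fun l => l ∈ Ico (k + 1 - s) (k + s)).card ≤ (Ico (k + 1 - s) (k + s)).card :=
            card_le_card fun l hl => (mem_filter.1 hl).2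
        _ ≤ 2 * s := by
            rw [Nat.card_Ico]
            omega
    have h4 : ((X.filter fun l => l ∈ Ico (k + 1 - s) (k + s)).card : ℝ) ≤ 2 * s := by exact_mod_cast h3
    linarith
  refine (sum_le_sum h1).trans (le_of_eq ?_)
  rw [sum_const, nsmul_eq_mul]
  ring

/-- the variance of a partial sum -/
noncomputable def vr (d s K : ℕ) (q : ℕ → ℕ) (g : ℕ → (Fin d → ℤ) → ℝ) (X : Finset ℕ) : ℝ :=
  avg d (tm q (K + s)) fun ν => (∑ k ∈ X, G s q g k ν) ^ 2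

lemma sq_sum (X : Finset ℕ) (ν : Fin d → ℤ) :
    (∑ k ∈ X, G s q g k ν) ^ 2 = ∑ k ∈ X, ∑ l ∈ X, G s q g k ν * G s q g l ν := by
  rw [sq, sum_mul_sum]

lemma Dat.vr_le (h : Dat d s K q g) (X : Finset ℕ) (hX : X ⊆ range K) : vr d s K q g X ≤ 8 * s * X.card := by
  refine le_trans (le_of_eq ?_) (h.cov_sum X hX)
  unfold vr
  simp only [sq_sum]
  rw [avg_sum]
  refine sum_congr rfl fun k _ => ?_
  rw [avg_sum]

lemma vr_nonneg (h : Dat d s K q g) (X : Finset ℕ) : 0 ≤ vr d s K q g X := by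
  unfold vr
  have := avg_mono (d := d) (q := tm q (K + s)) (f := fun _ => 0) (g := fun ν => (∑ k ∈ X, G s q g k ν) ^ 2) fun ν => sq_nonneg _
  rwa [avg_const h.tm_pos] at this

/-- the second moment over a box -/
lemma Dat.box_sq (h : Dat d s K q g) (X : Finset ℕ) (hX : X ⊆ range K) (Y : ℕ) (hY : ∀ i < K + s, q i ≤ Y)
    (m : Fin d → ℤ) (L : Fin d → ℕ) (T : ℝ) (hT0 : 0 < T) (hT : ∀ i, T ≤ L i) (hTY : d * (Y : ℝ) ^ (2 * s) ≤ T) :
    ∑ ν ∈ zbox m L, (∑ k ∈ X, G s q g k ν) ^ 2 ≤ (∏ i, (L i : ℝ)) * (8 * s * X.card + 8 * (X.card : ℝ) ^ 2 * (d * (Y : ℝ) ^ (2 * s) / T)) := by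
  have hX' : ∀ k ∈ X, k < K := fun k hk => mem_range.1 (hX hk)
  have hL0 : ∀ i, (0 : ℝ) < L i := fun i => hT0.trans_le (hT i)
  have hP0 : 0 < ∏ i, (L i : ℝ) := prod_pos fun i _ => hL0 i
  have hwY : ∀ k < K, wm q s k ≤ Y ^ s := by
    intro k hk
    unfold wm
    calc ∏ i ∈ Ico k (k + s), q i ≤ ∏ _i ∈ Ico k (k + s), Y := prod_le_prod' fun i hi => hY i (by rw [mem_Ico] at hi; omega)
      _ = Y ^ s := by rw [prod_const, Nat.card_Ico, Nat.add_sub_cancel_left]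
  have hterm : ∀ k ∈ X, ∀ l ∈ X, ∑ ν ∈ zbox m L, G s q g k ν * G s q g l ν ≤
      (∏ i, (L i : ℝ)) * (avg d (tm q (K + s)) (fun ν => G s q g k ν * G s q g l ν) + 8 * (d * (Y : ℝ) ^ (2 * s) / T)) := by
    intro k hk l hl
    have h0 : 1 ≤ wm q s k * wm q s l := Nat.mul_pos (h.wm_pos (hX' k hk)) (h.wm_pos (hX' l hl))
    have h1 : ((wm q s k * wm q s l : ℕ) : ℝ) ≤ (Y : ℝ) ^ (2 * s) := by
      have : wm q s k * wm q s l ≤ Y ^ (2 * s) := by
        rw [two_mul, pow_add]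
        exact Nat.mul_le_mul (hwY k (hX' k hk)) (hwY l (hX' l hl))
      exact_mod_cast this
    have h2 : (d : ℝ) * ((wm q s k * wm q s l : ℕ) : ℝ) ≤ d * (Y : ℝ) ^ (2 * s) := mul_le_mul_of_nonneg_left h1 (Nat.cast_nonneg d)
    have h3 := zbox_mean h0 m L T hT0 hT _ (h.GG_per (hX' k hk) (hX' l hl)) 4 (h.GG_bd (hX' k hk) (hX' l hl)) (h2.trans hTY)
    rw [h.GG_avg (hX' k hk) (hX' l hl)] at h3
    have h4 := (abs_le.1 h3).2
    have h5 : (d : ℝ) * ((wm q s k * wm q s l : ℕ) : ℝ) / T ≤ d * (Y : ℝ) ^ (2 * s) / T := div_le_div_of_nonneg_right h2 hT0.le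
    have h6 := mul_le_mul_of_nonneg_left h5 hP0.le
    linarith
  simp only [sq_sum]
  rw [sum_comm]
  have h1 : ∀ k ∈ X, ∑ ν ∈ zbox m L, ∑ l ∈ X, G s q g k ν * G s q g l ν ≤
      ∑ l ∈ X, (∏ i, (L i : ℝ)) * (avg d (tm q (K + s)) (fun ν => G s q g k ν * G s q g l ν) + 8 * (d * (Y : ℝ) ^ (2 * s) / T)) := by
    intro k hk
    rw [sum_comm]
    exact sum_le_sum fun l hl => hterm k hk l hl
  refine (sum_le_sum h1).trans ?_
  have h2 := h.cov_sum X hX
  have h3 : ∑ k ∈ X, ∑ l ∈ X, (∏ i, (L i : ℝ)) * (avg d (tm q (K + s)) (fun ν => G s q g k ν * G s q g l ν) + 8 * (d * (Y : ℝ) ^ (2 * s) / T)) =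
      (∏ i, (L i : ℝ)) * (∑ k ∈ X, ∑ l ∈ X, avg d (tm q (K + s)) (fun ν => G s q g k ν * G s q g l ν) + 8 * (X.card : ℝ) ^ 2 * (d * (Y : ℝ) ^ (2 * s) / T)) := by
    simp only [← mul_sum, sum_add_distrib, sum_const, nsmul_eq_mul]
    ring
  rw [h3]
  exact mul_le_mul_of_nonneg_left (by linarith) hP0.le

/-- comparison of variances -/
lemma vr_add (X R : Finset ℕ) (hd : Disjoint X R) (u : ℝ) (hu : 0 < u) :
    vr d s K q g (X ∪ R) ≤ (1 + u) * vr d s K q g X + (1 + 1 / u) * vr d s K q g R ∧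
    vr d s K q g X ≤ (1 + u) * vr d s K q g (X ∪ R) + (1 + 1 / u) * vr d s K q g R := by
  have hu2 : u * (1 / u) = 1 := by
    field_simp
  have key : ∀ a b : ℝ, (a + b) ^ 2 ≤ (1 + u) * a ^ 2 + (1 + 1 / u) * b ^ 2 := by
    intro a b
    have h1 : 0 ≤ (u * a - b) ^ 2 := sq_nonneg _
    have h2 : 0 < 1 / u := by positivity
    have h3 : (1 + u) * a ^ 2 + (1 + 1 / u) * b ^ 2 - (a + b) ^ 2 = 1 / u * (u * a - b) ^ 2 := by
      field_simp
      ring
    have h4 : 0 ≤ 1 / u * (u * a - b) ^ 2 := by positivity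
    linarith
  unfold vr
  constructor
  · rw [← avg_smul, ← avg_smul, ← avg_add]
    refine avg_mono fun ν => ?_
    rw [sum_union hd]
    exact key _ _
  · rw [← avg_smul, ← avg_smul, ← avg_add]
    refine avg_mono fun ν => ?_
    rw [sum_union hd]
    have := key (∑ k ∈ X, G s q g k ν + ∑ k ∈ R, G s q g k ν) (-∑ k ∈ R, G s q g k ν)
    rw [add_neg_cancel_right, neg_sq] at this
    exact this

end Q285MD
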